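import Pool.Agent.H50.SQ.Main

namespace Pool.Agent.Results.MP_56784f_an.SquareNotHyperplane

/-- For the real and for the complex scalars there is an infinite dimensional Banach space `X`
isomorphic to its square `X × X` but not to `X × 𝕜`, and not to `X × 𝕜ᵐ` for any `m ≥ 1`. -/
theorem result (𝕜 : Type) [RCLike 𝕜] :
    ∃ (X : Type) (_ : NormedAddCommGroup X) (_ : NormedSpace 𝕜 X),
      CompleteSpace X ∧ ¬ FiniteDimensional 𝕜 X ∧
      Nonempty ((X × X) ≃L[𝕜] X) ∧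
      ¬ Nonempty ((X × 𝕜) ≃L[𝕜] X) ∧
      ∀ m : ℕ, 1 ≤ m → ¬ Nonempty ((X × (Fin m → 𝕜)) ≃L[𝕜] X) :=
  Pool.Agent.H50.SQ.main 𝕜

end Pool.Agent.Results.MP_56784f_an.SquareNotHyperplane
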